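import Pool.Agent.helper60.DB.SpecI

/-! Row CC: the cube of the central binomial coefficient modulo `p²`. -/

namespace Pool.Agent.helper60.DB

open Polynomial Finset Pool.Agent.helper60.DK

theorem CC_aux_c3 (k : ℕ) :
    c3 (k + 1) * ((k : ℤ) + 1) ^ 3 = 8 * (2 * (k : ℤ) + 1) ^ 3 * c3 k := by
  unfold c3
  have h2 : ((k : ℤ) + 1) * ((k + 1).centralBinom : ℤ)
      = 2 * (2 * (k : ℤ) + 1) * (k.centralBinom : ℤ) := by
    exact_mod_cast Nat.succ_mul_centralBinom_succ k
  calc ((k + 1).centralBinom : ℤ) ^ 3 * ((k : ℤ) + 1) ^ 3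
      = (((k : ℤ) + 1) * ((k + 1).centralBinom : ℤ)) ^ 3 := by ring
    _ = _ := by rw [h2]; ring

theorem CC : CC_stmt := by
  intro p hp h5 k
  have hodd : p % 2 = 1 := by
    rcases Nat.Prime.eq_two_or_odd hp.out with h | h
    · omega
    · exact h
  have hp2 : (p : ℤ) = 2 * (hh p : ℤ) + 1 := by
    have : p = 2 * hh p + 1 := by unfold hh; omega
    exact_mod_cast this
  induction k with
  | zero =>
    intro _
    simp [c3, cc_zero]
  | succ k ih =>
    intro hk
    obtain ⟨d, hd⟩ := ih (by omega)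
    have h1 := CC_aux_c3 k
    have h2 := cc_succ (hh p) k
    have key : (c3 (k + 1) - (-16) ^ (k + 1) * cc (hh p) (k + 1)) * ((k : ℤ) + 1) ^ 3
        = (p : ℤ) ^ 2 * (8 * (2 * (k : ℤ) + 1) ^ 3 * d
          + 8 * (2 * (k : ℤ) + 1) * ((-16) ^ k * cc (hh p) k)) := by
      have e1 : (c3 (k + 1) - (-16) ^ (k + 1) * cc (hh p) (k + 1)) * ((k : ℤ) + 1) ^ 3
          = c3 (k + 1) * ((k : ℤ) + 1) ^ 3
            - (-16) ^ (k + 1) * (cc (hh p) (k + 1) * ((k : ℤ) + 1) ^ 3) := by ring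
      rw [e1, h1, h2]
      have e2 : c3 k = (p : ℤ) ^ 2 * d + (-16) ^ k * cc (hh p) k := by linarith
      rw [e2, hp2]
      ring
    have hcop : IsCoprime ((p : ℤ) ^ 2) (((k : ℤ) + 1) ^ 3) := by
      apply IsCoprime.pow
      have : Nat.Coprime p (k + 1) := by
        rw [Nat.Prime.coprime_iff_not_dvd hp.out]
        intro hdvd
        have := Nat.le_of_dvd (by omega) hdvd
        unfold hh at hk
        omega
      have h3 := Nat.isCoprime_iff_coprime.2 this
      simpa using h3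
    exact hcop.dvd_of_dvd_mul_right ⟨_, key⟩

end Pool.Agent.helper60.DB
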