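import Pool.Agent.helper60.DB.SpecM

/-! Row ZE: the three forms have no common zero. -/

namespace Pool.Agent.helper60.DB

open Polynomial

theorem ZE : ZE_stmt := by
  intro F _ A' B' n1 d1 n2 d2 h2 hB hAB hp1 hp2 e1 e2 e3
  obtain ⟨t, ht1, ht2⟩ : ∃ t : F, n2 = t * n1 ∧ d2 = t * d1 := by
    by_cases hn : n1 = 0
    · have hd : d1 ≠ 0 := by
        rcases hp1 with h | h
        · exact absurd hn h
        · exact h
      refine ⟨d2 / d1, ?_, by field_simp⟩
      rw [hn] at e2 ⊢
      have : n2 * d1 = 0 := by linear_combination -e2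
      rcases mul_eq_zero.1 this with h | h
      · rw [h]; ring
      · exact absurd h hd
    · refine ⟨n2 / n1, by field_simp, ?_⟩
      rw [div_mul_eq_mul_div, eq_div_iff hn]
      linear_combination e2
  have ht : t ≠ 0 := by
    rintro rfl
    rcases hp2 with h | h
    · exact h (by rw [ht1]; ring)
    · exact h (by rw [ht2]; ring)
  subst ht1 ht2
  have q1 : d1 ^ 2 = B' * n1 ^ 2 := by
    have : t * (d1 ^ 2 - B' * n1 ^ 2) = 0 := by linear_combination e1
    rcases mul_eq_zero.1 this with h | h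
    · exact absurd h ht
    · linear_combination h
  have hn : n1 ≠ 0 := by
    rintro rfl
    rcases hp1 with h | h
    · exact h rfl
    · apply h
      have : d1 ^ 2 = 0 := by rw [q1]; ring
      exact pow_eq_zero_iff (by norm_num) |>.1 this
  have hd : d1 ≠ 0 := by
    rintro rfl
    have : B' * n1 ^ 2 = 0 := by rw [← q1]; ring
    rcases mul_eq_zero.1 this with h | h
    · exact hB h
    · exact hn (pow_eq_zero_iff (by norm_num) |>.1 h)
  have q2 : 2 * t ^ 2 * n1 ^ 2 * d1 * (2 * B' * n1 + A' * d1) = 0 := by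
    linear_combination e3 - 2 * t ^ 2 * n1 * d1 * q1
  have q3 : 2 * B' * n1 + A' * d1 = 0 := by
    rcases mul_eq_zero.1 q2 with h | h
    · exfalso
      have : 2 * t ^ 2 * n1 ^ 2 * d1 ≠ 0 :=
        mul_ne_zero (mul_ne_zero (mul_ne_zero h2 (pow_ne_zero _ ht)) (pow_ne_zero _ hn)) hd
      exact this h
    · exact h
  apply hAB
  have q4 : B' * n1 ^ 2 * (A' ^ 2 - 4 * B') = 0 := by
    linear_combination (A' * d1 - 2 * B' * n1) * q3 - A' ^ 2 * q1
  rcases mul_eq_zero.1 q4 with h | h
  · exact absurd h (mul_ne_zero hB (pow_ne_zero _ hn))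
  · linear_combination h

end Pool.Agent.helper60.DB
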